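import Mathlib

/-!
# Project EQMU: the inequality of Golod and Shafarevich
-/

set_option autoImplicit false

namespace Pool.Agent.Helper84.EQMU

/-- The inequality of Golod and Shafarevich for `δ + 1` generators, `δ + c p (r + 1)` relations and
`c p + 1` further relations which are `p`-th powers, where `δ` is the largest number congruent to `1`
modulo `c` with `2 δ ≤ p`. -/
theorem golod {p r c : ℕ} (hc : 1 ≤ c) (h : 16 * c * (r + 1) + 4 * c + 6 ≤ p) :
    ∃ δ : ℕ, 3 ≤ δ ∧ δ ≡ 1 [MOD c] ∧ 2 * δ ≤ p ∧ p < 2 * δ + 2 * c ∧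
      ∃ t : ℝ, 0 < t ∧ t < 1 ∧
        1 - (δ + 1 : ℝ) * t + (δ + c * p * (r + 1) : ℝ) * t ^ 2 + (c * p + 1 : ℝ) * t ^ p < 0 := by
  set q := (p / 2 - 1) / c with hq
  have h1 : c * q ≤ p / 2 - 1 := Nat.mul_div_le _ _
  have h2 : p / 2 - 1 < c * q + c := by
    rw [← Nat.mul_succ]
    exact Nat.lt_mul_div_succ _ hc
  have hA : c * 1 ≤ c * (r + 1) := Nat.mul_le_mul_left c (by omega)
  have h3 : 16 * (c * (r + 1)) + 4 * c + 6 ≤ p := by
    rw [← mul_assoc]
    exact h
  generalize hAdef : c * (r + 1) = A at hA h3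
  generalize hm : c * q = m at h1 h2
  have h4 : m + 1 ≡ 1 [MOD c] := by
    rw [← hm]
    exact (Nat.modEq_zero_iff_dvd.2 (dvd_mul_right c q)).add_right 1
  refine ⟨m + 1, by omega, h4, by omega, by omega, 2 / ((m + 1 : ℕ) + 1), by positivity, ?_, ?_⟩
  · rw [div_lt_one (by positivity)]
    have h5 : (3 : ℝ) ≤ (m + 1 : ℕ) := by exact_mod_cast (by omega : 3 ≤ m + 1)
    linarith
  · have hcast : (c : ℝ) * p * (r + 1) = p * A := by
      rw [← hAdef]
      push_cast
      ring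
    rw [hcast]
    set D : ℝ := ((m + 1 : ℕ) : ℝ) + 1 with hD
    have hDA : (8 * A + 4 + c : ℝ) ≤ D := by
      have h5 : 8 * A + 4 + c ≤ m + 1 + 1 := by omega
      have h6 : ((8 * A + 4 + c : ℕ) : ℝ) ≤ ((m + 1 + 1 : ℕ) : ℝ) := by exact_mod_cast h5
      push_cast at h6
      rw [hD]
      push_cast
      linarith
    have hpD : (p : ℝ) ≤ 2 * D + 2 * c - 3 := by
      have h5 : p + 3 ≤ 2 * (m + 1 + 1) + 2 * c := by omega
      have h6 : ((p + 3 : ℕ) : ℝ) ≤ ((2 * (m + 1 + 1) + 2 * c : ℕ) : ℝ) := by exact_mod_cast h5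
      push_cast at h6
      rw [hD]
      push_cast
      linarith
    have hc1 : (1 : ℝ) ≤ c := by exact_mod_cast hc
    have hcA : (c : ℝ) ≤ A := by exact_mod_cast (by omega : c ≤ A)
    have hD0 : 0 < D := by linarith
    set t : ℝ := 2 / D with ht
    have ht0 : 0 < t := by positivity
    have htD : D * t = 2 := by
      rw [ht]
      field_simp
    have ht4 : t ≤ 1 / 4 := by
      rw [ht, div_le_iff₀ hD0]
      linarith
    -- the last term
    obtain ⟨n, hn⟩ : ∃ n, p = n + 2 := ⟨p - 2, by omega⟩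
    have h7 : ((n : ℝ) + 3) * t ^ n ≤ 1 := by
      have h8 : t ^ n ≤ (1 / 4) ^ n := pow_le_pow_left₀ ht0.le ht4 n
      have h9 : 1 + (n : ℝ) * 3 ≤ (1 + 3) ^ n := one_add_mul_le_pow (by norm_num) n
      have h10 : (1 : ℝ) ≤ n := by exact_mod_cast (by omega : 1 ≤ n)
      have h11 : (n : ℝ) + 3 ≤ 4 ^ n := by
        have h12 : (1 + 3 : ℝ) ^ n = 4 ^ n := by norm_num
        rw [h12] at h9
        linarith
      calc ((n : ℝ) + 3) * t ^ n ≤ 4 ^ n * (1 / 4) ^ n :=
            mul_le_mul h11 h8 (pow_nonneg ht0.le n) (by positivity)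
        _ = 1 := by rw [← mul_pow]; norm_num
    have h8 : (c * p + 1 : ℝ) * t ^ p ≤ c * t ^ 2 := by
      have h9 : (c * p + 1 : ℝ) ≤ c * (n + 3) := by
        rw [hn]
        push_cast
        nlinarith
      have h10 : t ^ p = t ^ n * t ^ 2 := by rw [hn, pow_add]
      rw [h10]
      calc (c * p + 1 : ℝ) * (t ^ n * t ^ 2) ≤ (c * (n + 3)) * (t ^ n * t ^ 2) :=
            mul_le_mul_of_nonneg_right h9 (by positivity)
        _ = c * (((n : ℝ) + 3) * t ^ n) * t ^ 2 := by ring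
        _ ≤ c * 1 * t ^ 2 := by
            refine mul_le_mul_of_nonneg_right ?_ (by positivity)
            exact mul_le_mul_of_nonneg_left h7 (by positivity)
        _ = c * t ^ 2 := by ring
    have h9 : 4 * (D - 1 + p * A + c) < D ^ 2 := by
      have h10 : (p : ℝ) * A ≤ (2 * D + 2 * c - 3) * A :=
        mul_le_mul_of_nonneg_right hpD (by linarith)
      nlinarith [mul_le_mul_of_nonneg_left hDA hD0.le, mul_le_mul_of_nonneg_left hDA
        (by linarith : (0 : ℝ) ≤ c)]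
    have h10 : (((m + 1 : ℕ) : ℝ) + p * A + c) * t ^ 2 < 1 := by
      have h11 : ((m + 1 : ℕ) : ℝ) = D - 1 := by rw [hD]; ring
      rw [h11, ht, div_pow, mul_div_assoc', div_lt_one (by positivity)]
      linarith
    nlinarith

/-- The inequality of Golod and Shafarevich for `δ + 1` generators, `δ + c p (r + 1)` relations and
`3 c p` further relations which are `p`-th powers, where `δ` is the largest number congruent to `1`
modulo `c` with `2 δ ≤ p`. -/
theorem golod3 {p r c : ℕ} (hc : 1 ≤ c) (h : 16 * c * (r + 1) + 4 * c + 6 ≤ p) :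
    ∃ δ : ℕ, 3 ≤ δ ∧ δ ≡ 1 [MOD c] ∧ 2 * δ ≤ p ∧ p < 2 * δ + 2 * c ∧
      ∃ t : ℝ, 0 < t ∧ t < 1 ∧
        1 - (δ + 1 : ℝ) * t + (δ + c * p * (r + 1) : ℝ) * t ^ 2 + (3 * c * p : ℝ) * t ^ p < 0 := by
  set q := (p / 2 - 1) / c with hq
  have h1 : c * q ≤ p / 2 - 1 := Nat.mul_div_le _ _
  have h2 : p / 2 - 1 < c * q + c := by
    rw [← Nat.mul_succ]
    exact Nat.lt_mul_div_succ _ hc
  have hA : c * 1 ≤ c * (r + 1) := Nat.mul_le_mul_left c (by omega)
  have h3 : 16 * (c * (r + 1)) + 4 * c + 6 ≤ p := by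
    rw [← mul_assoc]
    exact h
  generalize hAdef : c * (r + 1) = A at hA h3
  generalize hm : c * q = m at h1 h2
  have h4 : m + 1 ≡ 1 [MOD c] := by
    rw [← hm]
    exact (Nat.modEq_zero_iff_dvd.2 (dvd_mul_right c q)).add_right 1
  refine ⟨m + 1, by omega, h4, by omega, by omega, 2 / ((m + 1 : ℕ) + 1), by positivity, ?_, ?_⟩
  · rw [div_lt_one (by positivity)]
    have h5 : (3 : ℝ) ≤ (m + 1 : ℕ) := by exact_mod_cast (by omega : 3 ≤ m + 1)
    linarith
  · have hcast : (c : ℝ) * p * (r + 1) = p * A := by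
      rw [← hAdef]
      push_cast
      ring
    rw [hcast]
    set D : ℝ := ((m + 1 : ℕ) : ℝ) + 1 with hD
    have hDA : (8 * A + 4 + c : ℝ) ≤ D := by
      have h5 : 8 * A + 4 + c ≤ m + 1 + 1 := by omega
      have h6 : ((8 * A + 4 + c : ℕ) : ℝ) ≤ ((m + 1 + 1 : ℕ) : ℝ) := by exact_mod_cast h5
      push_cast at h6
      rw [hD]
      push_cast
      linarith
    have hpD : (p : ℝ) ≤ 2 * D + 2 * c - 3 := by
      have h5 : p + 3 ≤ 2 * (m + 1 + 1) + 2 * c := by omega
      have h6 : ((p + 3 : ℕ) : ℝ) ≤ ((2 * (m + 1 + 1) + 2 * c : ℕ) : ℝ) := by exact_mod_cast h5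
      push_cast at h6
      rw [hD]
      push_cast
      linarith
    have hc1 : (1 : ℝ) ≤ c := by exact_mod_cast hc
    have hcA : (c : ℝ) ≤ A := by exact_mod_cast (by omega : c ≤ A)
    have hD0 : 0 < D := by linarith
    set t : ℝ := 2 / D with ht
    have ht0 : 0 < t := by positivity
    have htD : D * t = 2 := by
      rw [ht]
      field_simp
    have ht4 : t ≤ 1 / 4 := by
      rw [ht, div_le_iff₀ hD0]
      linarith
    -- the last term
    obtain ⟨n, hn⟩ : ∃ n, p = n + 4 := ⟨p - 4, by omega⟩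
    have h7 : (3 * (n + 4) : ℝ) * t ^ (n + 2) ≤ 1 := by
      have h8 : t ^ (n + 2) ≤ (1 / 4) ^ (n + 2) := pow_le_pow_left₀ ht0.le ht4 (n + 2)
      have h9 : 1 + (n : ℝ) * 3 ≤ (1 + 3) ^ n := one_add_mul_le_pow (by norm_num) n
      have h11 : (3 * (n + 4) : ℝ) ≤ 4 ^ (n + 2) := by
        have h12 : (1 + 3 : ℝ) ^ n = 4 ^ n := by norm_num
        rw [h12] at h9
        have h13 : (4 : ℝ) ^ (n + 2) = 4 ^ n * 16 := by rw [pow_add]; norm_num
        have h14 : (0 : ℝ) ≤ n := Nat.cast_nonneg n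
        rw [h13]
        linarith
      calc (3 * (n + 4) : ℝ) * t ^ (n + 2) ≤ 4 ^ (n + 2) * (1 / 4) ^ (n + 2) :=
            mul_le_mul h11 h8 (pow_nonneg ht0.le _) (by positivity)
        _ = 1 := by rw [← mul_pow]; norm_num
    have h8 : (3 * c * p : ℝ) * t ^ p ≤ c * t ^ 2 := by
      have h9 : (p : ℝ) = n + 4 := by rw [hn]; push_cast; ring
      have h10 : t ^ p = t ^ (n + 2) * t ^ 2 := by rw [hn, ← pow_add]
      rw [h10, h9]
      calc (3 * c * (n + 4) : ℝ) * (t ^ (n + 2) * t ^ 2)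
            = c * ((3 * (n + 4) : ℝ) * t ^ (n + 2)) * t ^ 2 := by ring
        _ ≤ c * 1 * t ^ 2 := by
            refine mul_le_mul_of_nonneg_right ?_ (by positivity)
            exact mul_le_mul_of_nonneg_left h7 (by positivity)
        _ = c * t ^ 2 := by ring
    have h9 : 4 * (D - 1 + p * A + c) < D ^ 2 := by
      have h10 : (p : ℝ) * A ≤ (2 * D + 2 * c - 3) * A :=
        mul_le_mul_of_nonneg_right hpD (by linarith)
      nlinarith [mul_le_mul_of_nonneg_left hDA hD0.le, mul_le_mul_of_nonneg_left hDA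
        (by linarith : (0 : ℝ) ≤ c)]
    have h10 : (((m + 1 : ℕ) : ℝ) + p * A + c) * t ^ 2 < 1 := by
      have h11 : ((m + 1 : ℕ) : ℝ) = D - 1 := by rw [hD]; ring
      rw [h11, ht, div_pow, mul_div_assoc', div_lt_one (by positivity)]
      linarith
    nlinarith

end Pool.Agent.Helper84.EQMU
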